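import Pool.Agent.H677_SC.Basic

set_option autoImplicit false

open Finset

namespace Pool.Agent.Results.MP_b67006_nt.FalseAtSeven

/-- The generalized central trinomial coefficient `T_n(b, c)`, by its explicit formula. -/
def T (n : ℕ) (b c : ℤ) : ℤ :=
  ∑ j ∈ range (n / 2 + 1), (n.choose (2 * j) : ℤ) * ((2 * j).choose j : ℤ) * b ^ (n - 2 * j) * c ^ j

/-- `S_p = ∑_{k ≤ (p - 1) / 2} binom(2k, k) T_{2k}(2, 3) / 16 ^ k`. -/
def S (p : ℕ) : ℚ := ∑ k ∈ range ((p - 1) / 2 + 1), ((2 * k).choose k : ℚ) / 16 ^ k * (T (2 * k) 2 3 : ℚ)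

/-- `S'_p = ∑_{k ≤ p - 1} binom(2k, k) T_{2k}(4, -3) / 16 ^ k`. -/
def S' (p : ℕ) : ℚ := ∑ k ∈ range p, ((2 * k).choose k : ℚ) / 16 ^ k * (T (2 * k) 4 (-3) : ℚ)

/-- `u ≡ v` modulo `p ^ m` for rationals with denominator prime to `p`: the difference is
`p ^ m` times a rational number whose denominator is not divisible by `p`. -/
def Congr (p m : ℕ) (u v : ℚ) : Prop := ∃ r : ℚ, ¬ p ∣ r.den ∧ u - v = (p : ℚ) ^ m * r

/-- The statements (a) and (b) of Q1 for the prime `p`. -/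
def Assertion (p : ℕ) : Prop :=
  (p % 3 = 1 → ∀ x y : ℤ, (p : ℤ) = x ^ 2 + 3 * y ^ 2 → x ≡ 1 [ZMOD 3] →
    Congr p 2 (S p) (S' p) ∧
    Congr p 2 (S' p) ((jacobiSym (-1) p : ℚ) * (2 * x - p / (2 * x)))) ∧
  (p % 3 = 2 → Congr p 1 (S p) (S' p) ∧ Congr p 1 (S' p) 0)

/-- Q1 as posed, with `S'_p` summed up to `p - 1`, is false: (a) fails for `p = 7`. -/
theorem result : ¬ ∀ p : ℕ, p.Prime → 3 < p → Assertion p := by
  intro h
  obtain ⟨r, hr, he⟩ := ((h 7 (by norm_num) (by norm_num)).1 (by norm_num) (-2) 1 (by norm_num)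
    (by decide)).2
  have hj : jacobiSym (-1) 7 = -1 := by norm_num
  rw [hj] at he
  have t0 : T 0 4 (-3) = 1 := by decide +kernel
  have t2 : T 2 4 (-3) = 10 := by decide +kernel
  have t4 : T 4 4 (-3) = -266 := by decide +kernel
  have t6 : T 6 4 (-3) = -6524 := by decide +kernel
  have t8 : T 8 4 (-3) = 108838 := by decide +kernel
  have t10 : T 10 4 (-3) = 4793260 := by decide +kernel
  have t12 : T 12 4 (-3) = -35910980 := by decide +kernel
  have c1 : Nat.choose 2 1 = 2 := by decide +kernel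
  have c2 : Nat.choose 4 2 = 6 := by decide +kernel
  have c3 : Nat.choose 6 3 = 20 := by decide +kernel
  have c4 : Nat.choose 8 4 = 70 := by decide +kernel
  have c5 : Nat.choose 10 5 = 252 := by decide +kernel
  have c6 : Nat.choose 12 6 = 924 := by decide +kernel
  have key := Pool.Agent.H677_SC.dvd_of_den (p := 7) (m := 2) (by norm_num) hr
    (d := 16 ^ 6) (N := -12543985776) (by
      rw [← he]
      norm_num [S', Finset.sum_range_succ, t0, t2, t4, t6, t8, t10, t12, c1, c2, c3, c4, c5, c6])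
  revert key
  norm_num

end Pool.Agent.Results.MP_b67006_nt.FalseAtSeven
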